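import Pool.Agent.MP_1246c0_nt.H12.SpecN

/-! The total mass and the mass of the top class. -/

namespace Pool.Agent.MP_1246c0_nt.H12

open Finset Filter Topology

namespace NC

open Classical in
theorem sm {f : ℕ → ℝ} (hf : Summable f) (Q : ℕ → Prop) :
    Summable fun p => if p.Prime ∧ Q p then f p else 0 :=
  (hf.indicator {p | p.Prime ∧ Q p}).congr fun p => by
    rw [Set.indicator_apply]
    congr

theorem sp_le {f : ℕ → ℝ} (hf : Summable f) (h0 : ∀ p, p.Prime → 0 ≤ f p) {P Q R : ℕ → Prop}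
    (h : ∀ p, p.Prime → P p → Q p ∨ R p) : SP' P f ≤ SP' Q f + SP' R f := by
  unfold SP'
  rw [← (sm hf Q).tsum_add (sm hf R)]
  refine (sm hf P).tsum_le_tsum (fun p => ?_) ((sm hf Q).add (sm hf R))
  by_cases hp : p.Prime
  · have := h0 p hp
    have := h p hp
    split_ifs <;> first | linarith | tauto
  · simp [hp]

theorem sp_two (f : ℕ → ℝ) : SP' (· = 2) f = f 2 := by
  unfold SP'
  exact (tsum_eq_single 2 fun p hp => if_neg fun h => hp h.2).trans (if_pos ⟨Nat.prime_two, rfl⟩)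

theorem sp_sub {f g : ℕ → ℝ} (hf : Summable f) (hg : Summable g) (Q : ℕ → Prop) :
    SP' Q (fun p => f p - g p) = SP' Q f - SP' Q g := by
  unfold SP'
  rw [← (sm hf Q).tsum_sub (sm hg Q)]
  exact tsum_congr fun p => by split_ifs <;> simp

theorem sum_le_sp {f : ℕ → ℝ} (hf : Summable f) (h0 : ∀ p, p.Prime → 0 ≤ f p) (S : Finset ℕ)
    (hS : ∀ p ∈ S, p.Prime) : ∑ p ∈ S, f p ≤ SP' (fun _ => True) f := by
  unfold SP'
  refine le_trans (le_of_eq (sum_congr rfl fun p hp => (if_pos ⟨hS p hp, trivial⟩).symm))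
    ((sm hf fun _ => True).sum_le_tsum S fun p _ => ?_)
  split_ifs with h
  · exact h0 p h.1
  · exact le_rfl

theorem pw_eq (σ : ℝ) {p : ℕ} (hp : p.Prime) : (p : ℝ) ^ (-σ) / p = pw σ p := by
  rw [pw, ← Real.rpow_sub_one (Nat.cast_ne_zero.2 hp.ne_zero), show -σ - 1 = -1 - σ by ring]

theorem pw_nonneg (σ : ℝ) (p : ℕ) : 0 ≤ pw σ p := Real.rpow_nonneg (Nat.cast_nonneg p) _

theorem pw_anti {σ σ' : ℝ} (h : σ ≤ σ') {p : ℕ} (hp : p.Prime) : pw σ' p ≤ pw σ p :=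
  Real.rpow_le_rpow_of_exponent_le (Nat.one_le_cast.2 hp.one_le) (by linarith)

theorem pw_le {σ : ℝ} (h : 0 ≤ σ) {p : ℕ} (hp : p.Prime) : pw σ p ≤ 1 / p := by
  refine (pw_anti h hp).trans (le_of_eq ?_)
  rw [← pw_eq 0 hp, neg_zero, Real.rpow_zero]

theorem wb_bd {X p : ℕ} (h : s1 X ≤ s2 X) (hp : p.Prime) :
    0 ≤ wb X p / p ∧ wb X p / p ≤ pw (s1 X) p - pw (s2 X) p := by
  have := pw_anti h hp
  unfold wb
  split_ifs
  · rw [sub_div, pw_eq _ hp, pw_eq _ hp]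
    exact ⟨by linarith, le_rfl⟩
  · rw [zero_div]
    exact ⟨le_rfl, by linarith⟩

theorem ws_eq (X j0 : ℕ) {p : ℕ} (hp : p.Prime) :
    ws X j0 p / p = if lev p ≤ tpX X j0 / 2 then pw (s2 X) p else 0 := by
  unfold ws
  split_ifs
  · exact pw_eq _ hp
  · exact zero_div _

theorem exp_le {x : ℝ} (h : 0 ≤ x) : Real.exp (x - x ^ 2) ≤ 1 + x := by
  have h1 : 0 < 1 + x := by linarith
  rw [← Real.le_log_iff_exp_le h1]
  refine le_trans ?_ (Real.one_sub_inv_le_log_of_pos h1)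
  rw [le_sub_comm, inv_le_iff_one_le_mul₀ h1]
  nlinarith [pow_nonneg h 3]

theorem prod_ge (S : Finset ℕ) (x : ℕ → ℝ) (h : ∀ p ∈ S, 0 ≤ x p ∧ x p ≤ 1 / p) :
    Real.exp (∑ p ∈ S, x p - ∑' n : ℕ, 1 / (n : ℝ) ^ 2) ≤ ∏ p ∈ S, (1 + x p) := by
  refine le_trans ?_ (prod_le_prod (fun p _ => (Real.exp_pos _).le) fun p hp => exp_le (h p hp).1)
  rw [← Real.exp_sum, sum_sub_distrib]
  refine Real.exp_le_exp.2 (sub_le_sub_left (le_trans (sum_le_sum fun p hp => ?_)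
    ((Real.summable_one_div_nat_pow.2 one_lt_two).sum_le_tsum S fun p _ => by positivity)) _)
  rw [← one_div_pow]
  exact pow_le_pow_left₀ (h p hp).1 (h p hp).2 2

theorem mem_OP {X p : ℕ} : p ∈ OP X ↔ p ≤ X ∧ p.Prime ∧ p ≠ 2 := by
  rw [OP, mem_filter, mem_range, Nat.lt_succ_iff]

theorem high (hD : SDEC) (a : ℕ) {p : ℕ} (hp : p.Prime) (h2 : p ≠ 2) (h : ¬lev p ≤ a) :
    p % 2 ^ (a + 3) = 1 ∨ p % 2 ^ (a + 3) = 2 ^ (a + 3) - 1 := by
  obtain ⟨-, -, h1⟩ := hD.cls p (hp.eq_two_or_odd.resolve_left h2) hp.one_lt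
  have h3 : ∀ x : F2, x = 0 ∨ x = 1 := by decide
  exact (h3 (eps p)).imp (fun e => (h1 (a + 1)).1.1 ⟨by omega, e⟩)
    fun e => (h1 (a + 1)).2.1.1 ⟨by omega, e⟩

end NC

open NC in
theorem rowNC : OfNC := by
  classical
  rintro hD ⟨C, C0, hM⟩ hP hT j0
  refine ⟨Real.exp (-(2 * C + 5 + 2 * 2 ^ (j0 + 4)) - ∑' n : ℕ, 1 / (n : ℝ) ^ 2) / 1000,
    by positivity, ?_⟩
  filter_upwards [hP j0 (12 * C + 1), hT 1 one_pos] with X
    ⟨p1, p2, p3, p4, p5, p6, _, p8, p9, p10, _, _, _, p14, _, _⟩ hX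
  obtain ⟨m1, m2, m3, m4, m5, -⟩ := hM _ p2 (p3.trans p4)
  obtain ⟨-, n2, -, -, -, n6⟩ := hM _ (p2.trans_le p3) p4
  have L0 : 0 < Real.log X := (div_pos_iff_of_pos_left (by norm_num)).1 p2
  have r0 : 0 < ll X := by linarith
  set tp := tpX X j0 with htp
  have e8 : 8 ≤ 2 ^ (tp + 3) := by
    rw [pow_add]
    have := Nat.two_pow_pos tp
    omega
  have er : C * (((tp + 3 : ℕ) : ℝ) + 1) ^ 10 * s2 X ≤ 1 := by
    refine le_trans (mul_le_mul_of_nonneg_right (mul_le_mul (by linarith)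
      (pow_le_pow_left₀ (by positivity) (by push_cast; linarith) 10) (by positivity)
      (by linarith)) (p2.trans_le p3).le) p10
  have k1 := abs_le.1 ((m5 (tp + 3) 1 _ (by omega) odd_one (by omega) p3 p4).trans er)
  have k2 := abs_le.1 ((m5 (tp + 3) (2 ^ (tp + 3) - 1) _ (by omega)
    (Nat.Even.sub_odd (by omega) ((Nat.even_pow' (by omega)).2 even_two) odd_one) (by omega)
    p3 p4).trans er)
  have k3 : 2 / (2 : ℝ) ^ (tp + 3) * Real.log (s2 X / s1 X) ≤ 2 ^ (j0 + 4) := by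
    rw [div_mul_eq_mul_div, div_le_iff₀ (by positivity), ← pow_add,
      show j0 + 4 + (tp + 3) = tp + j0 + 6 + 1 by ring, pow_succ]
    linarith
  have k4 : 7 ≤ 2 / (2 : ℝ) ^ (tp + 3) * Real.log (s2 X / s1 X) := by
    rw [div_mul_eq_mul_div, le_div_iff₀ (by positivity)]
    have : (2 : ℝ) ^ (tp + 3 + 2) ≤ 2 ^ (tp + j0 + 5) := pow_le_pow_right₀ one_le_two (by omega)
    rw [pow_add] at this
    have : (0 : ℝ) < 2 ^ (tp + 3) := by positivity
    linarith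
  have g0 : ∀ p : ℕ, p.Prime → 0 ≤ pw (s1 X) p - pw (s2 X) p :=
    fun p hp => sub_nonneg.2 (pw_anti p3 hp)
  constructor
  · have a1 := (hX (fun p => p ≠ 2 ∧ lev p ≤ tp) (by simp)).2.1
    have a2 := (hX (fun p => p ≠ 2 ∧ lev p ≤ tp / 2) (by simp)).2.2.2
    have a3 := sp_le (m2.sub n2) g0 (P := fun _ => True) (Q := fun p => p ≠ 2 ∧ lev p ≤ tp)
      (R := fun p => ¬(p ≠ 2 ∧ lev p ≤ tp)) fun p _ _ => em _
    have a4 := sp_le (m2.sub n2) g0 (P := fun p => ¬(p ≠ 2 ∧ lev p ≤ tp)) (Q := (· = 2))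
      (R := fun p => p ≠ 2 ∧ ¬lev p ≤ tp) fun p _ h => by tauto
    have a5 := sp_le (m2.sub n2) g0 (P := fun p => p ≠ 2 ∧ ¬lev p ≤ tp)
      fun p hp h => high hD tp hp h.1 h.2
    have a6 := sp_le n2 (fun p _ => pw_nonneg _ p) (P := fun _ => True)
      (Q := fun p => p ≠ 2 ∧ lev p ≤ tp / 2) (R := fun p => ¬(p ≠ 2 ∧ lev p ≤ tp / 2))
      fun p _ _ => em _
    have a7 := sp_le n2 (fun p _ => pw_nonneg _ p) (P := fun p => ¬(p ≠ 2 ∧ lev p ≤ tp / 2))
      (Q := (· = 2)) (R := fun p => p % 2 ^ (tp / 2 + 3) = 1 ∨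
        p % 2 ^ (tp / 2 + 3) = 2 ^ (tp / 2 + 3) - 1) fun p hp h => by
      by_cases e : p = 2
      · exact Or.inl e
      · exact Or.inr (high hD _ hp e fun e' => h ⟨e, e'⟩)
    have a8 := n6 (tp / 2 + 3) (by omega) (by
      rw [s2, one_div_one_div, Real.log_pow]
      exact_mod_cast p14)
    have a9 : pw (s1 X) 2 ≤ 1 := (pw_le p2.le Nat.prime_two).trans (by norm_num)
    rw [sp_two] at a4 a7
    rw [sp_sub m2 n2 fun _ => True] at a3
    have b1 : ∑ p ∈ (OP ⌊Real.exp (ll X * Real.log X)⌋₊).filter (fun p => p ≠ 2 ∧ lev p ≤ tp),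
        wb X p / p = ∑ p ∈ PP X j0, wb X p / p :=
      sum_congr (filter_congr fun p hp => and_iff_right (mem_OP.1 hp).2.2) fun _ _ => rfl
    have b2 : ∑ p ∈ (OP ⌊Real.exp (ll X * Real.log X)⌋₊).filter (fun p => p ≠ 2 ∧ lev p ≤ tp / 2),
        pw (s2 X) p = ∑ p ∈ PP X j0, ws X j0 p / p := by
      rw [sum_congr rfl fun p (hp : p ∈ PP X j0) => ws_eq X j0 (mem_OP.1 (mem_filter.1 hp).1).2.1,
        ← sum_filter, PP, filter_filter]
      refine sum_congr (filter_congr fun p hp => ?_) fun _ _ => rfl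
      have := (mem_OP.1 hp).2.2
      omega
    have b3 := prod_ge (PP X j0) (fun p => ws X j0 p / p + wb X p / p) fun p hp => by
      have hp' := (mem_OP.1 (mem_filter.1 hp).1).2.1
      have c1 := wb_bd p3 hp'
      have c2 := pw_le p2.le hp'
      have c3 := pw_nonneg (s2 X) p
      rw [ws_eq X j0 hp']
      split_ifs <;> constructor <;> linarith [c1.1, c1.2]
    simp only [← add_assoc] at b3
    refine le_trans ?_ b3
    have b4 : Real.log X / 1000 = Real.exp (Real.log (1 / s1 X)) := by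
      rw [Real.exp_log (one_div_pos.2 p2), s1, one_div_div]
    rw [div_mul_eq_mul_div, mul_div_assoc, b4, ← Real.exp_add, sum_add_distrib, ← b1, ← b2]
    refine Real.exp_le_exp.2 ?_
    linarith [(abs_le.1 m4).1, k1.2, k2.2]
  · have a1 := (hX (fun p => p % 2 ^ (tp + 3) = 2 ^ (tp + 3) - 1) (by
      rw [Nat.mod_eq_of_lt (by omega)]
      omega)).2.1
    set V := (OP ⌊Real.exp (ll X * Real.log X)⌋₊).filter
      fun p => p % 2 ^ (tp + 3) = 2 ^ (tp + 3) - 1 with hV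
    have v1 : ∀ p ∈ V, p.Prime ∧ p ≠ 2 := fun p hp => (mem_OP.1 (mem_filter.1 hp).1).2
    rw [← sum_filter_add_sum_filter_not V fun p => p ^ 6 ≤ X] at a1
    have a2 : ∑ p ∈ V.filter fun p => p ^ 6 ≤ X, wb X p / p ≤ ∑ q ∈ TQ X j0, wb X q / q := by
      refine sum_le_sum_of_subset_of_nonneg (fun p hp => ?_)
        fun p hp _ => (wb_bd p3 (mem_OP.1 (mem_filter.1 hp).1).2.1).1
      obtain ⟨h1, h2⟩ := mem_filter.1 hp
      obtain ⟨h3, h4⟩ := v1 p h1
      obtain ⟨-, -, h5⟩ := hD.cls p (h3.eq_two_or_odd.resolve_left h4) h3.one_lt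
      have h6 := (h5 (tp + 1)).2.1.2 (mem_filter.1 h1).2
      exact mem_filter.2 ⟨mem_OP.2 ⟨(Nat.le_self_pow (by norm_num) p).trans h2, h3, h4⟩,
        h6.1, h6.2, h2⟩
    have a3 : Real.log X * ∑ p ∈ V.filter fun p => ¬p ^ 6 ≤ X, wb X p / p ≤
        6 * ∑ p ∈ V.filter fun p => ¬p ^ 6 ≤ X, Real.log p * pw (s1 X) p := by
      rw [mul_sum, mul_sum]
      refine sum_le_sum fun p hp => ?_
      obtain ⟨h1, h2⟩ := mem_filter.1 hp
      have c1 := wb_bd p3 (v1 p h1).1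
      have c2 := pw_nonneg (s2 X) p
      have c3 : Real.log X ≤ 6 * Real.log p := by
        have X0 : (0 : ℝ) < X := by
          rcases Nat.eq_zero_or_pos X with e | e
          · simp [e] at L0
          · exact_mod_cast e
        have := Real.log_le_log X0 (show (X : ℝ) ≤ (p : ℝ) ^ 6 by exact_mod_cast (not_le.1 h2).le)
        rw [Real.log_pow] at this
        exact_mod_cast this
      rw [← mul_assoc]
      exact mul_le_mul c3 (by linarith [c1.2]) c1.1 (L0.le.trans c3)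
    have a4 := (sum_le_sp m1 (fun p _ => mul_nonneg (Real.log_natCast_nonneg p) (pw_nonneg _ p))
      (V.filter fun p => ¬p ^ 6 ≤ X) fun p hp => (v1 p (mem_filter.1 hp).1).1).trans m3
    rw [show 1 / s1 X = Real.log X / 1000 by rw [s1, one_div_div]] at a4
    have a5 : ll X ≤ Real.log X - 1 := Real.log_le_sub_one_of_pos L0
    have a6 : ∑ p ∈ V.filter fun p => ¬p ^ 6 ≤ X, wb X p / p ≤ 1 :=
      le_of_mul_le_mul_left (by linarith) L0
    linarith [k2.1]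

end Pool.Agent.MP_1246c0_nt.H12
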