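import Pool.Agent.MP_1246c0_nt.H12.SpecR

/-! The number of ideals of given colength. -/

namespace Pool.Agent.MP_1246c0_nt.H12

open Polynomial

namespace IDC

section Count

variable {α : Type} {idx e : α → ℕ} {par : α → α} {top : α}

theorem fib (h4 : ∀ J n, idx J ≠ 0 → n ≠ 0 → {I | par I = J ∧ e I = n}.encard ≤ n)
    {S : Set α} (hS : S.Finite) (h : ∀ J ∈ S, idx J ≠ 0) {n : ℕ} (hn : n ≠ 0) :
    {I | par I ∈ S ∧ e I = n}.Finite ∧ {I | par I ∈ S ∧ e I = n}.ncard ≤ n * S.ncard := by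
  have h1 : {I | par I ∈ S ∧ e I = n} = ⋃ J ∈ hS.toFinset, {I | par I = J ∧ e I = n} := by
    ext I
    simp
  have h2 : {I | par I ∈ S ∧ e I = n}.encard ≤ (n * S.ncard : ℕ) := by
    rw [h1]
    refine (Finset.set_encard_biUnion_le _ _).trans ((Finset.sum_le_card_nsmul _ _ (n : ℕ∞)
      fun J hJ => h4 J n (h J (hS.mem_toFinset.1 hJ)) hn).trans ?_)
    rw [Set.ncard_eq_toFinset_card S hS, nsmul_eq_mul, Nat.cast_mul, mul_comm]
  have h3 := Set.finite_of_encard_le_coe h2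
  rw [← h3.cast_ncard_eq, Nat.cast_le] at h2
  exact ⟨h3, h2⟩

theorem split (h1 : ∀ I, idx I = idx (par I) * e I) {I : α} {γ : ℕ} (h : idx I = 2 ^ γ) :
    ∃ j ≤ γ, idx (par I) = 2 ^ j ∧ e I = 2 ^ (γ - j) := by
  obtain ⟨j, hj, e1⟩ := (Nat.dvd_prime_pow Nat.prime_two).1
    (show idx (par I) ∣ 2 ^ γ from ⟨e I, by rw [← h, ← h1]⟩)
  refine ⟨j, hj, e1, Nat.eq_of_mul_eq_mul_left (Nat.two_pow_pos j) ?_⟩
  rw [← pow_add, Nat.add_sub_cancel' hj, ← h, h1 I, e1]

theorem geo (n : ℕ) : ∑ j ∈ Finset.range n, ((2 : ℝ) ^ (n + 1 - j) * (5 * (7 / 2) ^ j)) ≤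
    4 * (7 / 2) ^ (n + 1) := by
  induction n with
  | zero => norm_num
  | succ n ih =>
    rw [Finset.sum_range_succ, show n + 1 + 1 - n = 2 by omega]
    have : ∑ j ∈ Finset.range n, ((2 : ℝ) ^ (n + 1 + 1 - j) * (5 * (7 / 2) ^ j)) =
        2 * ∑ j ∈ Finset.range n, ((2 : ℝ) ^ (n + 1 - j) * (5 * (7 / 2) ^ j)) := by
      rw [Finset.mul_sum]
      refine Finset.sum_congr rfl fun j hj => ?_
      rw [show n + 1 + 1 - j = n + 1 - j + 1 by have := Finset.mem_range.1 hj; omega]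
      ring
    rw [this]
    have h0 : (0 : ℝ) ≤ (7 / 2) ^ n := by positivity
    rw [pow_succ] at ih
    rw [pow_succ (7 / 2 : ℝ) (n + 1), pow_succ (7 / 2 : ℝ) n]
    linarith

theorem count (h1 : ∀ I, idx I = idx (par I) * e I) (h2 : ∀ I, e I = 1 → I = top)
    (h0 : idx top = 1) (h3 : ∀ I, e (par I) ∣ e I)
    (h4 : ∀ J n, idx J ≠ 0 → n ≠ 0 → {I | par I = J ∧ e I = n}.encard ≤ n) (γ : ℕ) :
    {I | idx I = 2 ^ γ}.Finite ∧ ({I | idx I = 2 ^ γ}.ncard : ℝ) ≤ 5 * (7 / 2) ^ γ := by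
  have a0 : ∀ I γ, idx I = 2 ^ (γ + 1) → e I ≠ 1 := fun I γ h h' => by
    rw [h2 I h', h0] at h
    exact absurd h (Nat.one_lt_two_pow γ.succ_ne_zero).ne
  have a1 : ∀ γ, {I | idx I = 2 ^ γ ∧ e I ≤ 2}.Finite ∧
      {I | idx I = 2 ^ γ ∧ e I ≤ 2}.ncard ≤ 2 ^ γ := fun γ => by
    induction γ with
    | zero =>
      have : {I | idx I = 2 ^ 0 ∧ e I ≤ 2} ⊆ {top} := fun I hI =>
        h2 I (Nat.eq_one_of_mul_eq_one_left ((h1 I).symm.trans hI.1))
      exact ⟨(Set.finite_singleton _).subset this,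
        (Set.ncard_le_ncard this).trans (Set.ncard_singleton _).le⟩
    | succ γ ih =>
      obtain ⟨b1, b2⟩ := fib h4 ih.1 (fun J hJ => hJ.1 ▸ (Nat.two_pow_pos γ).ne') two_ne_zero
      have : {I | idx I = 2 ^ (γ + 1) ∧ e I ≤ 2} ⊆
          {I | par I ∈ {I | idx I = 2 ^ γ ∧ e I ≤ 2} ∧ e I = 2} := fun I hI => by
        have c1 := a0 I γ hI.1
        have c2 := hI.2
        have c3 := (h1 I).symm.trans hI.1
        have c4 : e I ≠ 0 := fun h => by
          rw [h, mul_zero] at c3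
          exact (Nat.two_pow_pos _).ne c3
        have c5 : e I = 2 := by omega
        rw [c5, pow_succ] at c3
        exact ⟨⟨Nat.eq_of_mul_eq_mul_right two_pos c3, Nat.le_of_dvd two_pos (c5 ▸ h3 I)⟩, c5⟩
      refine ⟨b1.subset this, (Set.ncard_le_ncard this b1).trans (b2.trans ?_)⟩
      rw [pow_succ']
      exact Nat.mul_le_mul_left 2 ih.2
  induction γ using Nat.strong_induction_on with
  | _ γ ih =>
    have b := fun (j : ℕ) (hj : j ∈ Finset.range (γ - 1)) =>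
      fib h4 (ih j (by have := Finset.mem_range.1 hj; omega)).1
        (fun J hJ => hJ ▸ (Nat.two_pow_pos j).ne') (Nat.two_pow_pos (γ - j)).ne'
    have s : {I | idx I = 2 ^ γ} ⊆ {I | idx I = 2 ^ γ ∧ e I ≤ 2} ∪ ⋃ j ∈ Finset.range (γ - 1),
        {I | par I ∈ {I | idx I = 2 ^ j} ∧ e I = 2 ^ (γ - j)} := fun I hI => by
      obtain ⟨j, hj, c1, c2⟩ := split h1 hI
      by_cases c : j < γ - 1
      · exact Or.inr (Set.mem_biUnion (Finset.mem_range.2 c) ⟨c1, c2⟩)
      · refine Or.inl ⟨hI, ?_⟩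
        rw [c2]
        exact Nat.pow_le_pow_right two_pos (show γ - j ≤ 1 by omega)
    have f := (a1 γ).1.union ((Finset.range (γ - 1)).finite_toSet.biUnion fun j hj => (b j hj).1)
    refine ⟨f.subset s, ?_⟩
    have c1 := (Set.ncard_le_ncard s f).trans ((Set.ncard_union_le _ _).trans
      (add_le_add (a1 γ).2 ((Finset.set_ncard_biUnion_le _ _).trans
        (Finset.sum_le_sum fun j hj => (b j hj).2))))
    have c2 : ({I | idx I = 2 ^ γ}.ncard : ℝ) ≤ 2 ^ γ + ∑ j ∈ Finset.range (γ - 1),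
        2 ^ (γ - j) * ({I | idx I = 2 ^ j}.ncard : ℝ) := by exact_mod_cast c1
    have c3 : (2 : ℝ) ^ γ ≤ (7 / 2) ^ γ := pow_le_pow_left₀ (by norm_num) (by norm_num) γ
    have c4 : ∑ j ∈ Finset.range (γ - 1), 2 ^ (γ - j) * ({I | idx I = 2 ^ j}.ncard : ℝ) ≤
        4 * (7 / 2) ^ γ := by
      cases γ with
      | zero => simp
      | succ n =>
        refine le_trans (Finset.sum_le_sum fun j hj => ?_) (geo n)
        exact mul_le_mul_of_nonneg_left
          (ih j (by have := Finset.mem_range.1 hj; omega)).2 (by positivity)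
    linarith

end Count

theorem monic {f : F2[X]} (h : f ≠ 0) : f.Monic := by
  have h1 : ∀ x : F2, x ≠ 0 → x = 1 := by decide
  exact h1 _ (leadingCoeff_ne_zero.2 h)

theorem card_quot {f : F2[X]} (h : f ≠ 0) :
    (Ideal.span {f}).toAddSubgroup.index = 2 ^ f.natDegree := by
  have := (monic h).finite_quotient
  change Nat.card (F2[X] ⧸ Ideal.span {f}) = _
  rw [Module.natCard_eq_pow_finrank (K := F2), finrank_quotient_span_eq_natDegree, Nat.card_zmod]

theorem ne_zero {f : F2[X]} (h : (Ideal.span {f}).toAddSubgroup.index ≠ 0) : f ≠ 0 := by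
  rintro rfl
  rw [Ideal.span_singleton_eq_bot.2 rfl] at h
  exact h (AddSubgroup.index_bot.trans Nat.card_eq_zero_of_infinite)

section Ring

variable {R : Type} [CommRing R] (π : R →+* F2[X]) (t : R) (hs : Function.Surjective π)
  (hk : ∀ r, π r = 0 ↔ t ∣ r)

include hs hk

theorem mem_comap (I : Ideal R) (x : R) : π x ∈ I.map π ↔ ∃ y ∈ I, ∃ r, x = y + t * r := by
  rw [Ideal.mem_map_iff_of_surjective π hs]
  constructor
  · rintro ⟨y, hy, e⟩
    obtain ⟨r, hr⟩ := (hk (x - y)).1 (by rw [map_sub, e, sub_self])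
    exact ⟨y, hy, r, by rw [← hr]; ring⟩
  · rintro ⟨y, hy, r, rfl⟩
    exact ⟨y, hy, by rw [map_add, (hk _).2 (dvd_mul_right t r), add_zero]⟩

theorem idx_mul (I : Ideal R) : I.toAddSubgroup.index =
    (I.colon {t}).toAddSubgroup.index * (I.map π).toAddSubgroup.index := by
  have h1 : (I.colon {t}).toAddSubgroup = I.toAddSubgroup.comap (AddMonoidHom.mulLeft t) := by
    ext x
    change x ∈ I.colon {t} ↔ t * x ∈ I
    rw [Submodule.mem_colon_singleton, smul_eq_mul, mul_comm]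
  have h2 : I.toAddSubgroup ⊔ (AddMonoidHom.mulLeft t).range =
      (I.map π).toAddSubgroup.comap π.toAddMonoidHom := by
    ext x
    refine AddSubgroup.mem_sup.trans (Iff.trans ?_ (mem_comap π t hs hk I x).symm)
    exact ⟨fun ⟨y, hy, _, ⟨r, rfl⟩, e⟩ => ⟨y, hy, r, e.symm⟩,
      fun ⟨y, hy, r, e⟩ => ⟨y, hy, _, ⟨r, rfl⟩, e.symm⟩⟩
  rw [h1, AddSubgroup.index_comap, ← AddSubgroup.relIndex_sup_left,
    ← AddSubgroup.index_comap_of_surjective (I.map π).toAddSubgroup (f := π.toAddMonoidHom) hs,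
    ← h2, AddSubgroup.relIndex_mul_index le_sup_left]

theorem eq_top (ht : IsNilpotent t) (I : Ideal R) (h : (I.map π).toAddSubgroup.index = 1) :
    I = ⊤ := by
  have h1 : π 1 ∈ (I.map π).toAddSubgroup := by
    rw [AddSubgroup.index_eq_one.1 h]
    trivial
  obtain ⟨y, hy, r, e⟩ := (mem_comap π t hs hk I 1).1 h1
  rw [← sub_eq_iff_eq_add] at e
  exact Ideal.eq_top_of_isUnit_mem I (e ▸ hy)
    ((Commute.all t r).isNilpotent_mul_right ht).isUnit_one_sub

omit hs hk in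
theorem le_colon (I : Ideal R) : I ≤ I.colon {t} := fun x hx => by
  rw [Submodule.mem_colon_singleton, smul_eq_mul]
  exact I.mul_mem_right t hx

omit hk in
theorem gen (I : Ideal R) : ∃ F ∈ I, I.map π = Ideal.span {π F} := by
  obtain ⟨f, hf⟩ := (IsPrincipalIdealRing.principal (I.map π)).principal
  obtain ⟨F, hF, rfl⟩ := (Ideal.mem_map_iff_of_surjective π hs).1
    (show f ∈ I.map π from hf ▸ Ideal.mem_span_singleton_self f)
  exact ⟨F, hF, hf⟩

theorem le_of {I I' : Ideal R} {F : R} (h : I'.colon {t} = I.colon {t}) (hF : F ∈ I) (hF' : F ∈ I')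
    (hg : I'.map π = Ideal.span {π F}) : I' ≤ I := fun x hx => by
  obtain ⟨a, ha⟩ := Ideal.mem_span_singleton'.1 (hg ▸ Ideal.mem_map_of_mem π hx)
  obtain ⟨a, rfl⟩ := hs a
  obtain ⟨r, hr⟩ := (hk (x - a * F)).1 (by rw [map_sub, map_mul, ha, sub_self])
  have h1 : r ∈ I'.colon {t} := by
    rw [Submodule.mem_colon_singleton, smul_eq_mul, mul_comm, ← hr]
    exact I'.sub_mem hx (I'.mul_mem_left a hF')
  rw [h, Submodule.mem_colon_singleton, smul_eq_mul, mul_comm, ← hr] at h1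
  simpa using I.add_mem h1 (I.mul_mem_left a hF)

theorem fibre (J : Ideal R) (n : ℕ) (hJ : J.toAddSubgroup.index ≠ 0) (hn : n ≠ 0) :
    {I : Ideal R | I.colon {t} = J ∧ (I.map π).toAddSubgroup.index = n}.encard ≤ n := by
  rcases Set.eq_empty_or_nonempty
    {I : Ideal R | I.colon {t} = J ∧ (I.map π).toAddSubgroup.index = n} with h | ⟨I₀, h₀⟩
  · simp [h]
  choose F hF hg using gen π hs
  have h1 : I₀.toAddSubgroup.relIndex J.toAddSubgroup = n := by
    have a := AddSubgroup.relIndex_mul_index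
      (show I₀.toAddSubgroup ≤ J.toAddSubgroup from h₀.1 ▸ le_colon t I₀)
    rw [idx_mul π t hs hk I₀, h₀.1, h₀.2, mul_comm] at a
    exact Nat.eq_of_mul_eq_mul_left (Nat.pos_of_ne_zero hJ) a
  have h2 : ∀ I : Ideal R, (I.map π).toAddSubgroup.index = n →
      π (F I) ≠ 0 ∧ 2 ^ (π (F I)).natDegree = n := fun I hI => by
    rw [hg] at hI
    have a := ne_zero (hI ▸ hn)
    exact ⟨a, by rw [← card_quot a, hI]⟩
  have h3 : ∀ I I' : Ideal R, (I.map π).toAddSubgroup.index = n →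
      (I'.map π).toAddSubgroup.index = n → (π (F I)).degree = (π (F I')).degree :=
    fun I I' a b => by
      rw [degree_eq_natDegree (h2 I a).1, degree_eq_natDegree (h2 I' b).1,
        Nat.pow_right_injective le_rfl ((h2 I a).2.trans (h2 I' b).2.symm)]
  let φ : {I : Ideal R | I.colon {t} = J ∧ (I.map π).toAddSubgroup.index = n} →
      J.toAddSubgroup ⧸ I₀.toAddSubgroup.addSubgroupOf J.toAddSubgroup := fun I =>
    QuotientAddGroup.mk ⟨F I, by have := le_colon t I.1 (hF I); rwa [I.2.1] at this⟩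
  have key : ∀ I I', φ I = φ I' → I'.1 ≤ I.1 := fun I I' e => by
    have a : -F I + F I' ∈ I₀ := QuotientAddGroup.eq.1 e
    rw [neg_add_eq_sub] at a
    have b : π (F I' - F I) = 0 := by
      refine eq_zero_of_dvd_of_degree_lt
        (Ideal.mem_span_singleton.1 (hg I₀ ▸ Ideal.mem_map_of_mem π a)) ?_
      rw [map_sub, h3 I₀ I' h₀.2 I'.2.2]
      exact degree_sub_lt_left (h3 _ _ I'.2.2 I.2.2) (h2 _ I'.2.2).1
        ((monic (h2 _ I'.2.2).1).trans (monic (h2 _ I.2.2).1).symm)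
    obtain ⟨r, hr⟩ := (hk _).1 b
    have c : r ∈ I₀.colon {t} := by
      rwa [Submodule.mem_colon_singleton, smul_eq_mul, mul_comm, ← hr]
    rw [h₀.1, ← I.2.1, Submodule.mem_colon_singleton, smul_eq_mul, mul_comm, ← hr] at c
    exact le_of π t hs hk (I'.2.1.trans I.2.1.symm) (by simpa using I.1.add_mem c (hF I))
      (hF I') (hg I')
  have : Finite (J.toAddSubgroup ⧸ I₀.toAddSubgroup.addSubgroupOf J.toAddSubgroup) :=
    Nat.finite_of_card_ne_zero fun e => hn (h1.symm.trans e)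
  have h4 : Function.Injective φ := fun I I' e =>
    Subtype.ext (le_antisymm (key I' I e.symm) (key I I' e))
  refine (ENat.card_le_card_of_injective h4).trans ?_
  rw [ENat.card_eq_coe_natCard]
  exact (congrArg Nat.cast h1).le

theorem main (ht : IsNilpotent t) (γ : ℕ) : {I : Ideal R | Nat.card (R ⧸ I) = 2 ^ γ}.Finite ∧
    ({I : Ideal R | Nat.card (R ⧸ I) = 2 ^ γ}.ncard : ℝ) ≤ 5 * (7 / 2) ^ γ :=
  count (idx := fun I : Ideal R => I.toAddSubgroup.index)
    (e := fun I => (I.map π).toAddSubgroup.index) (par := fun I => I.colon {t}) (top := ⊤)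
    (idx_mul π t hs hk) (eq_top π t hs hk ht) AddSubgroup.index_top
    (fun I => AddSubgroup.index_dvd_of_le (Ideal.map_mono (le_colon t I)))
    (fibre π t hs hk) γ

end Ring

end IDC

theorem rowIDC : SIDC := by
  refine ⟨5, fun Λ _ _ st au τ N γ h => IDC.main (mapRingHom au) (C τ)
    (map_surjective au (ZMod.ringHom_surjective au)) (fun r => ?_)
    ⟨N, by rw [← map_pow, h.nil, map_zero]⟩ γ⟩
  rw [C_dvd_iff_dvd_coeff, coe_mapRingHom, Polynomial.ext_iff]
  exact forall_congr' fun i => by rw [coeff_map, coeff_zero, h.ker]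

end Pool.Agent.MP_1246c0_nt.H12
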